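import Pool.Agent.Helper90.JT.High

/-!
# JT (MP_13b103_pr): the directed edges with tail in a ball
-/

set_option autoImplicit false

namespace Pool.Agent.Helper90.JT

open MeasureTheory ProbabilityTheory Pool.Agent.Helper79.GR Pool.Agent.Helper41.JT

variable {d : ℕ}

open Classical in
/-- the directed edges with tail in the ball of radius `M` -/
noncomputable def DM (d M : ℕ) : Finset (V d × St d) :=
  ((Fintype.piFinset fun _ : Fin d => Finset.Icc (-(M : ℤ)) M).filter
    fun x : V d => n1 x ≤ M) ×ˢ Finset.univ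

theorem mem_DM {M : ℕ} {f : V d × St d} : f ∈ DM d M ↔ n1 f.1 ≤ M := by
  classical
  rw [DM, Finset.mem_product, Finset.mem_filter]
  constructor
  · rintro ⟨⟨_, h⟩, _⟩
    exact h
  · intro h
    refine ⟨⟨?_, h⟩, Finset.mem_univ _⟩
    rw [Fintype.mem_piFinset]
    intro i
    have h1 : |((f.1 i : ℤ) : ℝ)| ≤ M := by
      refine le_trans ?_ h
      exact Finset.single_le_sum (f := fun i => |((f.1 i : ℤ) : ℝ)|)
        (fun _ _ => abs_nonneg _) (Finset.mem_univ i)
    have h2 : |f.1 i| ≤ (M : ℤ) := by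
      have : ((|f.1 i| : ℤ) : ℝ) ≤ ((M : ℤ) : ℝ) := by
        push_cast
        exact h1
      exact_mod_cast this
    rw [Finset.mem_Icc]
    exact abs_le.1 h2

/-- upper bound: geodesics have at most linearly many directed edges in a ball -/
theorem card_DM_le {a b : ℝ} {c : Edge d → ℝ} (hc : Bd a b c) (hb : 0 ≤ b) (y : V d) (M : ℕ)
    (w : List (St d)) (hw : Geo c y w) :
    (((DM d M).filter (fun f => f ∈ des y w)).card : ℝ) ≤ (b / a * (1 + n1 y) + 1) * (M + 1) := by
  have h1 := count_ball hc hb y (M := M) (Nat.cast_nonneg M) (DM d M)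
    (fun f hf => mem_DM.1 hf) w hw
  refine h1.trans ?_
  have h2 : 0 ≤ b / a := div_nonneg hb hc.1.le
  have h3 := n1_nonneg y
  have h4 : (0 : ℝ) ≤ M := Nat.cast_nonneg M
  have h5 : b / a * (M + n1 y) ≤ b / a * ((1 + n1 y) * (M + 1)) := by
    apply mul_le_mul_of_nonneg_left _ h2
    nlinarith [mul_nonneg h3 h4]
  nlinarith

open Classical in
/-- lower bound: a ray has linearly many expensive directed edges with number at least `k₀` in
large balls -/
theorem low_DM {c : Edge d → ℝ} (x : V d) (g : ℕ → St d)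
    (hinj : Function.Injective fun n => pos x (pre g n)) (β : ℝ) (n₀ : ℕ)
    (hn₀ : ∀ n, n₀ ≤ n → (pre g n).length ≤
      2 * ((eds x (pre g n)).countP (fun e => decide (β ≤ c e)))) (k₀ : ℕ) :
    ∃ M₀ : ℕ, ∀ M, M₀ ≤ M → M ≤ 4 * ((DM d M).filter (fun f : V d × St d =>
      β ≤ c (ed f.1 f.2) ∧ ∃ n, k₀ ≤ n ∧ f = (pos x (pre g n), g n))).card := by
  obtain ⟨k, hk⟩ := exists_nat_n1 x
  refine ⟨n₀ + 4 * k₀ + 3 * k, fun M hM => ?_⟩
  have h1 := ray_high (c := c) x g hinj β (M - k) (hn₀ (M - k) (by omega)) k₀ (DM d M) (by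
    intro n hn
    rw [mem_DM]
    have h2 := n1_pos_le x (pre g n)
    rw [length_pre, hk] at h2
    have h3 : ((k + n : ℕ) : ℝ) ≤ M := by
      exact_mod_cast (by omega : k + n ≤ M)
    push_cast at h3
    exact h2.trans h3)
  have h4 : ((DM d M).filter (fun f : V d × St d => β ≤ c (ed f.1 f.2) ∧
      ∃ n, k₀ ≤ n ∧ n < M - k ∧ f = (pos x (pre g n), g n))).card ≤
      ((DM d M).filter (fun f : V d × St d =>
        β ≤ c (ed f.1 f.2) ∧ ∃ n, k₀ ≤ n ∧ f = (pos x (pre g n), g n))).card := by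
    apply Finset.card_le_card
    intro f hf
    rw [Finset.mem_filter] at hf ⊢
    obtain ⟨h5, h6, n, h7, -, h8⟩ := hf
    exact ⟨h5, h6, n, h7, h8⟩
  omega

end Pool.Agent.Helper90.JT
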