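import Pool.Agent.Helper90.JT.High

/-!
# JT for general laws: almost surely the weights are admissible (`Ok`), and rays are expensive
-/

set_option autoImplicit false

namespace Pool.Agent.Helper90.JT

open MeasureTheory ProbabilityTheory Pool.Agent.Helper79.GR Pool.Agent.Helper41.JT

variable {Ω : Type*} [MeasurableSpace Ω] {d : ℕ} {P : Measure Ω} {ν : Measure ℝ}

theorem cost_nonneg {c : Edge d → ℝ} (hc : ∀ e, 0 ≤ c e) (x : V d) (w : List (St d)) :
    0 ≤ cost c x w := by
  induction w generalizing x with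
  | nil => exact le_rfl
  | cons s w ih =>
    change 0 ≤ c (ed x s) + cost c (x + sv s) w
    exact add_nonneg (hc _) (ih _)

theorem countP_mul_le_cost {c : Edge d → ℝ} (hc : ∀ e, 0 ≤ c e) {β : ℝ}
    (x : V d) (w : List (St d)) :
    β * ((eds x w).countP (fun e => decide (β ≤ c e)) : ℝ) ≤ cost c x w := by
  induction w generalizing x with
  | nil => simp [eds, cost]
  | cons s w ih =>
    have h1 := ih (x + sv s)
    change β * (((ed x s :: eds (x + sv s) w).countP fun e => decide (β ≤ c e) : ℕ) : ℝ) ≤
      c (ed x s) + cost c (x + sv s) w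
    rw [List.countP_cons]
    by_cases h : β ≤ c (ed x s)
    · simp only [h, decide_true, if_true]
      push_cast
      linarith
    · have h2 := hc (ed x s)
      simp only [h, decide_false]
      simp only [Bool.false_eq_true, if_false, add_zero]
      linarith

theorem pos_take_succ' (x : V d) (w : List (St d)) (i : ℕ) (hi : i < w.length) :
    pos x (w.take (i + 1)) = pos x (w.take i) + sv w[i] := by
  rw [← List.take_concat_get' w i hi, pos_append]
  rfl

theorem eds_getElem' (x : V d) (w : List (St d)) (i : ℕ) (hi : i < (eds x w).length)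
    (hi' : i < w.length) : (eds x w)[i] = ed (pos x (w.take i)) w[i] := by
  induction w generalizing x i with
  | nil => exact absurd hi' (Nat.not_lt_zero _)
  | cons s w ih =>
    cases i with
    | zero => rfl
    | succ i =>
      have := ih (x + sv s) i (by simpa [eds] using hi) (by simpa using hi')
      simpa [eds, pos] using this

/-- walks without double points have different edges -/
theorem nodup_of_inj (x : V d) (w : List (St d))
    (hinj : ∀ i j, i < j → j ≤ w.length → pos x (w.take i) ≠ pos x (w.take j)) :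
    (eds x w).Nodup := by
  unfold List.Nodup
  rw [List.pairwise_iff_getElem]
  intro i j hi hj hij heq
  have hi' : i < w.length := by rwa [Pool.Agent.Helper79.GR.length_eds] at hi
  have hj' : j < w.length := by rwa [Pool.Agent.Helper79.GR.length_eds] at hj
  rw [eds_getElem' x w i hi hi', eds_getElem' x w j hj hj'] at heq
  have h1 := congrArg Subtype.val heq
  simp only [ed, Sym2.eq_iff] at h1
  rcases h1 with h1 | h1
  · exact hinj i j hij hj'.le h1.1
  · rw [← pos_take_succ' x w j hj'] at h1
    exact hinj i (j + 1) (Nat.lt_succ_of_lt hij) hj' h1.1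

/-- loops may be removed -/
theorem exists_nodup {c : Edge d → ℝ} (hc : ∀ e, 0 ≤ c e) (x : V d) (w : List (St d)) :
    ∃ w', pos x w' = pos x w ∧ cost c x w' ≤ cost c x w ∧ (eds x w').Nodup := by
  classical
  have hex : ∃ n, ∃ w' : List (St d), w'.length = n ∧ pos x w' = pos x w ∧
      cost c x w' ≤ cost c x w := ⟨w.length, w, rfl, rfl, le_rfl⟩
  obtain ⟨w', h1, h2, h3⟩ := Nat.find_spec hex
  refine ⟨w', h2, h3, nodup_of_inj x w' ?_⟩
  intro i j hij hj heq
  have hp : pos x (w'.take i ++ w'.drop j) = pos x w' := by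
    conv_rhs => rw [← List.take_append_drop j w']
    rw [pos_append, pos_append, heq]
  have h4 : w'.take j = w'.take i ++ (w'.drop i).take (j - i) := by
    rw [← List.take_add]
    congr 1
    omega
  have h5 : cost c x w' = cost c x (w'.take i) +
      cost c (pos x (w'.take i)) ((w'.drop i).take (j - i)) +
      cost c (pos x (w'.take j)) (w'.drop j) := by
    conv_lhs => rw [← List.take_append_drop j w']
    rw [cost_append]
    conv_lhs => rw [h4]
    rw [cost_append, ← h4]
  have h6 := cost_nonneg hc (pos x (w'.take i)) ((w'.drop i).take (j - i))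
  have h7 : cost c x (w'.take i ++ w'.drop j) ≤ cost c x w' := by
    rw [cost_append, heq, h5]
    linarith
  have h8 : (w'.take i ++ w'.drop j).length < w'.length := by
    rw [List.length_append, List.length_take, List.length_drop]
    omega
  rw [h1] at h8
  exact Nat.find_min hex h8 ⟨_, rfl, hp.trans h2, h7.trans h3⟩

/-- positive weights for which long walks with different edges are expensive are admissible -/
theorem ok_of_long {c : Edge d → ℝ} (hpos : ∀ e, 0 < c e)
    (hlong : ∀ (x : V d) (R : ℝ), ∃ n₀ : ℕ, ∀ u : List (St d), n₀ ≤ u.length →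
      (eds x u).Nodup → R < cost c x u) : Ok c := by
  classical
  refine ⟨hpos, fun x R => ?_⟩
  obtain ⟨n₀, hn₀⟩ := hlong x R
  -- every walk of cost at most `R` stays in the ball
  have hball : ∀ w : List (St d), cost c x w ≤ R → n1 (pos x w - x) ≤ n₀ := by
    intro w hw
    obtain ⟨w', h1, h2, h3⟩ := exists_nodup (fun e => (hpos e).le) x w
    have h4 : w'.length < n₀ := by
      by_contra hcon
      exact absurd (hn₀ w' (not_lt.1 hcon) h3) (not_lt.2 (h2.trans hw))
    rw [← h1]
    exact (n1_pos_sub_le x w').trans (by exact_mod_cast h4.le)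
  -- a lower bound of the weights in the ball
  have hfin : {f : V d × St d | n1 (f.1 - x) ≤ n₀}.Finite := by
    have h1 : {f : V d × St d | n1 (f.1 - x) ≤ n₀} ⊆
        ((Fintype.piFinset fun i : Fin d => Finset.Icc (x i - (n₀ : ℤ)) (x i + n₀)) ×ˢ
          (Finset.univ : Finset (St d)) : Finset (V d × St d)) := by
      intro f hf
      rw [Finset.mem_coe, Finset.mem_product, Fintype.mem_piFinset]
      refine ⟨fun i => ?_, Finset.mem_univ _⟩
      have h2 : |(((f.1 - x) i : ℤ) : ℝ)| ≤ n₀ :=
        (Finset.single_le_sum (f := fun i => |(((f.1 - x) i : ℤ) : ℝ)|)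
          (fun _ _ => abs_nonneg _) (Finset.mem_univ i)).trans hf
      have h3 : |(f.1 - x) i| ≤ (n₀ : ℤ) := by
        have : ((|(f.1 - x) i| : ℤ) : ℝ) ≤ ((n₀ : ℤ) : ℝ) := by
          push_cast
          exact_mod_cast h2
        exact_mod_cast this
      rw [Pi.sub_apply] at h3
      obtain ⟨h4, h5⟩ := abs_le.1 h3
      rw [Finset.mem_Icc]
      omega
    exact (Finset.finite_toSet _).subset h1
  obtain ⟨δ, hδ0, hδ⟩ : ∃ δ : ℝ, 0 < δ ∧ ∀ f : V d × St d, n1 (f.1 - x) ≤ n₀ →
      δ ≤ c (ed f.1 f.2) := by
    rcases hfin.toFinset.eq_empty_or_nonempty with he | hne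
    · refine ⟨1, one_pos, fun f hf => ?_⟩
      have : f ∈ hfin.toFinset := (Set.Finite.mem_toFinset _).2 hf
      rw [he] at this
      exact absurd this (Finset.notMem_empty _)
    · obtain ⟨f₀, -, hf₀⟩ := hfin.toFinset.exists_min_image (fun f => c (ed f.1 f.2)) hne
      exact ⟨c (ed f₀.1 f₀.2), hpos _, fun f hf =>
        hf₀ f ((Set.Finite.mem_toFinset _).2 hf)⟩
  -- the length
  have hlen : ∀ w : List (St d), cost c x w ≤ R → δ * w.length ≤ R := by
    intro w hw
    refine le_trans ?_ hw
    have hpre : ∀ i, i ≤ w.length → n1 (pos x (w.take i) - x) ≤ n₀ := by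
      intro i _
      apply hball
      refine le_trans ?_ hw
      conv_rhs => rw [← List.take_append_drop i w]
      rw [cost_append]
      have := cost_nonneg (fun e => (hpos e).le) (pos x (w.take i)) (w.drop i)
      linarith
    have key : ∀ i, i ≤ w.length → δ * i ≤ cost c x (w.take i) := by
      intro i
      induction i with
      | zero => intro _; simp [cost]
      | succ i ih =>
        intro hi
        have h1 := ih (by omega)
        have h2 := hδ (pos x (w.take i), w[i]) (hpre i (by omega))
        rw [← List.take_concat_get' w i (by omega), cost_append]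
        change δ * ((i + 1 : ℕ) : ℝ) ≤ cost c x (w.take i) +
          (c (ed (pos x (w.take i)) w[i]) + 0)
        push_cast
        linarith
    have := key w.length le_rfl
    rwa [List.take_length] at this
  have hsub : {w : List (St d) | cost c x w ≤ R} ⊆
      {w : List (St d) | w.length ≤ ⌊R / δ⌋₊} := by
    intro w hw
    have h1 := hlen w hw
    change w.length ≤ ⌊R / δ⌋₊
    apply Nat.le_floor
    rw [le_div_iff₀ hδ0, mul_comm]
    exact h1
  exact (List.finite_length_le (St d) _).subset hsub

/-- almost surely the weights are admissible and long walks are expensive -/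
theorem ok_ae {X : Edge d → Ω → ℝ} (hP : IsProbabilityMeasure P)
    (hm : ∀ e, Measurable (X e)) (hi : iIndepFun X P) (hl : ∀ e, P.map (X e) = ν)
    (hat : ∀ x, ν {x} = 0) (h0 : ν (Set.Iio 0) = 0) (hd : 1 ≤ d) :
    ∃ β : ℝ, 0 < β ∧ 0 < ν.real (Set.Ico 0 β) ∧
      ν.real (Set.Iio β) ≤ 1 / (64 * (d : ℝ) ^ 2) ∧
      ∀ᵐ ω ∂P, Ok (cf X ω) ∧ ∀ x : V d, ∃ n₀ : ℕ, ∀ u : List (St d), n₀ ≤ u.length →
        (eds x u).Nodup → β / 2 * u.length ≤ cost (cf X ω) x u := by
  have hd' : (1 : ℝ) ≤ d := by exact_mod_cast hd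
  have hν : IsProbabilityMeasure ν := by
    have i : Fin d := ⟨0, hd⟩
    rw [← hl (ed 0 (i, true))]
    exact Measure.isProbabilityMeasure_map (hm _).aemeasurable
  have hq : (0 : ℝ) < 1 / (64 * (d : ℝ) ^ 2) := by positivity
  have hq1 : 1 / (64 * (d : ℝ) ^ 2) < 1 := by
    rw [div_lt_one (by positivity)]
    nlinarith
  obtain ⟨β, hβ0, hβ1, hβ⟩ := exists_be hat h0 hq hq1
  refine ⟨β, hβ0, hβ1, hβ, ?_⟩
  have hpos : ∀ᵐ ω ∂P, ∀ e, 0 < X e ω := by
    have : Countable (Edge d) := inferInstance
    rw [ae_all_iff]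
    intro e
    have h1 : ν (Set.Iic 0) = 0 := by
      rw [← Set.Iio_union_right]
      exact measure_union_null h0 (hat 0)
    rw [← hl e, Measure.map_apply (hm e) measurableSet_Iic] at h1
    have h2 : ∀ᵐ ω ∂P, ω ∉ X e ⁻¹' Set.Iic 0 := measure_eq_zero_iff_ae_notMem.1 h1
    filter_upwards [h2] with ω hω
    exact not_le.1 hω
  filter_upwards [high hP hm hi hl hd hβ, hpos] with ω h1 h2
  have hlong : ∀ x : V d, ∃ n₀ : ℕ, ∀ u : List (St d), n₀ ≤ u.length →
      (eds x u).Nodup → β / 2 * u.length ≤ cost (cf X ω) x u := by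
    intro x
    obtain ⟨n₀, hn₀⟩ := h1 x
    refine ⟨n₀, fun u hu hnd => ?_⟩
    have h3 := hn₀ u hu hnd
    have h4 : (u.length : ℝ) ≤ 2 * ((eds x u).countP (fun e => decide (β ≤ X e ω)) : ℝ) := by
      exact_mod_cast h3
    have h5 := countP_mul_le_cost (c := cf X ω) (fun e => (h2 e).le) (β := β) x u
    refine le_trans ?_ h5
    change β / 2 * u.length ≤ β * ((eds x u).countP (fun e => decide (β ≤ X e ω)) : ℝ)
    nlinarith
  refine ⟨ok_of_long h2 fun x R => ?_, hlong⟩
  obtain ⟨n₀, hn₀⟩ := hlong x
  obtain ⟨k, hk⟩ := exists_nat_gt (R / (β / 2))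
  refine ⟨max n₀ k, fun u hu hnd => ?_⟩
  have h6 := hn₀ u ((le_max_left _ _).trans hu) hnd
  have h7 : (k : ℝ) ≤ u.length := by exact_mod_cast (le_max_right n₀ k).trans hu
  have h8 : 0 < β / 2 := by linarith
  rw [div_lt_iff₀ h8] at hk
  nlinarith

end Pool.Agent.Helper90.JT
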