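import Pool.Agent.Helper41.JT.All
import Pool.Agent.Helper90.JT.OkAe

/-!
# JT for general laws: the join theorem from a linear bound along rays

In the abstract form `join_ae` of helper41 the events `A_f`, `E_f` are replaced by their parts with
`T(y, p) ≤ M` (lowering a weight does not raise `T(y, p)`): so no bound of geodesics in balls is
needed.
-/

set_option autoImplicit false

namespace Pool.Agent.Helper90.JT

open Pool.Agent.Helper79.GR MeasureTheory ProbabilityTheory Filter Pool.Agent.Helper41.JT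
open scoped ENNReal

variable {d : ℕ} {Ω : Type*} [MeasurableSpace Ω] {P : Measure Ω} {X : Edge d → Ω → ℝ}
  {ν : Measure ℝ}

theorem measurableSet_TLe (y p : V d) (R : ℝ) :
    MeasurableSet {c : Edge d → ℝ | T c y p ≤ R} :=
  measurableSet_setOfPred.2 (mle (measurable_T_cfg y p) measurable_const)

open Classical in
/-- the inequality between the probabilities of `A_f` and `E_f` at level `R` -/
theorem prob_AfR_le [IsProbabilityMeasure P] (hm : ∀ e, Measurable (X e)) (hi : iIndepFun X P)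
    (hl : ∀ e, P.map (X e) = ν) (hOk : ∀ᵐ ω ∂P, Ok (cf X ω)) {β' β'' β ε : ℝ} (h0 : 0 < β')
    (h1 : β'' + ε ≤ β) (hε : 0 < ε) (h2 : 2 * ε < β) {w : ℝ≥0∞}
    (hw : ∀ t, ν (Set.Icc (t - ε) (t + ε)) ≤ w) (x y : V d) (K : ℕ) (p : V d) (s : St d)
    (R : ℝ) :
    ν (Set.Ico β' β'') * P {ω | Af β ε K x y p s (cf X ω) ∧ T (cf X ω) y p ≤ R} ≤
      K * w * P {ω | Ef K y p s (cf X ω) ∧ T (cf X ω) y p ≤ R} := by
  have hE : MeasurableSet {c : Edge d → ℝ | Ok c ∧ Af β ε K x y p s c ∧ T c y p ≤ R} :=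
    measurableSet_Ok.inter ((measurableSet_Af β ε K x y p s).inter (measurableSet_TLe y p R))
  have hG : MeasurableSet {c : Edge d → ℝ | Ef K y p s c ∧ T c y p ≤ R} :=
    (measurableSet_Ef K y p s).inter (measurableSet_TLe y p R)
  have key := slice P X hm hi ν (ed p s) (hl _) (Set.Ico β' β'')
    {c : Edge d → ℝ | Ok c ∧ Af β ε K x y p s c ∧ T c y p ≤ R}
    {c | Ef K y p s c ∧ T c y p ≤ R} hE hG (K * w) ?_ ?_
  · refine le_trans (le_of_eq ?_) key
    congr 1
    apply measure_congr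
    filter_upwards [hOk] with ω hω
    apply propext
    constructor
    · intro h
      exact ⟨hω, h⟩
    · intro h
      exact h.2
  · intro c
    by_cases hne : ∃ t, Function.update c (ed p s) t ∈
        {c : Edge d → ℝ | Ok c ∧ Af β ε K x y p s c ∧ T c y p ≤ R}
    · obtain ⟨t₀, ht₀, -⟩ := hne
      obtain ⟨F, hF1, hF2⟩ := Pool.Agent.Helper82.JT.cover
        {t | Function.update c (ed p s) t ∈
          {c : Edge d → ℝ | Ok c ∧ Af β ε K x y p s c ∧ T c y p ≤ R}} ε hε K
        (by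
          rintro ⟨t, ht1, ht2⟩
          refine Pool.Agent.Helper82.JT.sep ht₀ x y p s β ε hε h2 K ⟨t, ht1, fun i => ?_⟩
          rw [Function.update_idem]
          exact (ht2 i).2.1)
      refine (measure_mono hF2).trans ((measure_biUnion_finset_le _ _).trans ?_)
      calc ∑ t ∈ F, ν (Set.Icc (t - ε) (t + ε)) ≤ ∑ _t ∈ F, w := Finset.sum_le_sum fun t _ => hw t
        _ = F.card * w := by rw [Finset.sum_const, nsmul_eq_mul]
        _ ≤ K * w := by gcongr
    · have : {t | Function.update c (ed p s) t ∈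
          {c : Edge d → ℝ | Ok c ∧ Af β ε K x y p s c ∧ T c y p ≤ R}} = ∅ := by
        ext t
        simp only [Set.mem_empty_iff_false, iff_false]
        exact fun h => hne ⟨t, h⟩
      rw [this]
      simp
  · rintro c ⟨hc, hA, hR⟩ t ⟨ht1, ht2⟩
    have ht0 : 0 < t := by linarith
    have htc : t ≤ c (ed p s) := by
      have := hA.1
      linarith
    exact ⟨ef_of_af hc ht0 hε.le (by linarith) hA,
      (T_mono hc (hc.update (ed p s) ht0).ps (update_le htc) y p).trans hR⟩

open Classical in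
/-- **The join theorem**, abstract form with levels. -/
theorem join_lev [IsProbabilityMeasure P] [IsProbabilityMeasure ν]
    (hm : ∀ e, Measurable (X e)) (hi : iIndepFun X P)
    (hl : ∀ e, P.map (X e) = ν) (hat : ∀ t, ν {t} = 0) (hOk : ∀ᵐ ω ∂P, Ok (cf X ω))
    {β' β'' β : ℝ} (h0 : 0 < β') (h1 : β'' < β) (hβ : 0 < β)
    (hκ : 0 < ν (Set.Ico β' β'')) (x y : V d) (K : ℕ) (D : ℕ → Finset (V d × St d))
    (C c₀ : ℝ) (hc₀ : 0 < c₀)
    (hSum : ∀ᶠ M : ℕ in atTop, ∑ f ∈ D M, P.real {ω | Ef K y f.1 f.2 (cf X ω) ∧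
      T (cf X ω) y f.1 ≤ M} ≤ C * M)
    (hL : ∀ᵐ ω ∂P, ∀ g : ℕ → St d, RayF (cf X ω) x g → ∀ᶠ M : ℕ in atTop,
      c₀ * M ≤ ((D M).filter (fun f => β ≤ cf X ω (ed f.1 f.2) ∧
        T (cf X ω) y f.1 ≤ M ∧ ∃ n, f = (pos x (pre g n), g n))).card) :
    ∀ᵐ ω ∂P, Few (cf X ω) y K → ∀ g : ℕ → St d, RayF (cf X ω) x g →
      Join (cf X ω) x y g := by
  set κ : ℝ := ν.real (Set.Ico β' β'') with hκd
  have hκ0 : 0 < κ := ENNReal.toReal_pos hκ.ne' (measure_ne_top _ _)
  set B : Set Ω := {ω | ¬ (Few (cf X ω) y K → ∀ g : ℕ → St d, RayF (cf X ω) x g →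
      Join (cf X ω) x y g)} with hB
  -- the bound for a fixed `ε`
  have main : ∀ w : ℝ, 0 < w → P.real B ≤ 2 * (K * w / κ * C) / c₀ := by
    intro w hw
    obtain ⟨ε₀, hε₀, hε₀w⟩ := Pool.Agent.Helper82.JT.small_int ν hat (ENNReal.ofReal w)
      (ENNReal.ofReal_pos.2 hw)
    obtain ⟨ε, hε, he1, he2, he3⟩ : ∃ ε : ℝ, 0 < ε ∧ ε ≤ ε₀ ∧ β'' + ε ≤ β ∧ 2 * ε < β :=
      ⟨min ε₀ (min (β - β'') (β / 3)), by
        refine lt_min hε₀ (lt_min (by linarith) (by positivity)), min_le_left _ _, by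
        have := (min_le_right ε₀ _).trans (min_le_left (β - β'') (β / 3))
        linarith, by
        have := (min_le_right ε₀ _).trans (min_le_right (β - β'') (β / 3))
        linarith⟩
    have hwε : ∀ t, ν (Set.Icc (t - ε) (t + ε)) ≤ ENNReal.ofReal w := fun t =>
      (measure_mono (Set.Icc_subset_Icc (by linarith) (by linarith))).trans (hε₀w t)
    have hAE : ∀ (M : ℕ) (f : V d × St d),
        P.real {ω | Af β ε K x y f.1 f.2 (cf X ω) ∧ T (cf X ω) y f.1 ≤ M} ≤
        K * w / κ * P.real {ω | Ef K y f.1 f.2 (cf X ω) ∧ T (cf X ω) y f.1 ≤ M} := by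
      intro M f
      have h3 := prob_AfR_le hm hi hl hOk h0 he2 hε he3 hwε x y K f.1 f.2 M
      have h4 := ENNReal.toReal_mono (by
        refine ENNReal.mul_ne_top (ENNReal.mul_ne_top (ENNReal.natCast_ne_top K)
          ENNReal.ofReal_ne_top) (measure_ne_top _ _)) h3
      rw [ENNReal.toReal_mul, ENNReal.toReal_mul, ENNReal.toReal_mul,
        ENNReal.toReal_ofReal hw.le, ENNReal.toReal_natCast] at h4
      rw [div_mul_eq_mul_div, le_div_iff₀ hκ0, mul_comm]
      exact h4
    -- the events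
    have hmA : ∀ (M : ℕ) (f : V d × St d),
        MeasurableSet {ω | Af β ε K x y f.1 f.2 (cf X ω) ∧ T (cf X ω) y f.1 ≤ M} := by
      intro M f
      have hcf : Measurable fun ω => cf X ω := measurable_pi_lambda _ fun e => hm e
      exact hcf ((measurableSet_Af β ε K x y f.1 f.2).inter (measurableSet_TLe y f.1 M))
    set G : ℕ → Set Ω := fun M => {ω | c₀ / 2 * M ≤
      ∑ f ∈ D M, Set.indicator {ω | Af β ε K x y f.1 f.2 (cf X ω) ∧ T (cf X ω) y f.1 ≤ M}
        (fun _ => (1 : ℝ)) ω} with hG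
    have hGle : ∀ᶠ M : ℕ in atTop, P.real (G M) ≤ 2 * (K * w / κ * C) / c₀ := by
      filter_upwards [hSum, eventually_gt_atTop 0] with M hM hM0
      have hM0' : (0 : ℝ) < M := by exact_mod_cast hM0
      have hint : Integrable (fun ω => ∑ f ∈ D M,
          Set.indicator {ω | Af β ε K x y f.1 f.2 (cf X ω) ∧ T (cf X ω) y f.1 ≤ M}
            (fun _ => (1 : ℝ)) ω) P :=
        integrable_finsetSum _ fun f _ => (integrable_const (1 : ℝ)).indicator (hmA M f)
      have h5 := mul_meas_ge_le_integral_of_nonneg (μ := P) (f := fun ω => ∑ f ∈ D M,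
          Set.indicator {ω | Af β ε K x y f.1 f.2 (cf X ω) ∧ T (cf X ω) y f.1 ≤ M}
            (fun _ => (1 : ℝ)) ω)
          (Eventually.of_forall fun ω => Finset.sum_nonneg fun f _ =>
            Set.indicator_nonneg (fun _ _ => zero_le_one) _) hint (c₀ / 2 * M)
      have h6 : ∫ ω, ∑ f ∈ D M,
          Set.indicator {ω | Af β ε K x y f.1 f.2 (cf X ω) ∧ T (cf X ω) y f.1 ≤ M}
            (fun _ => (1 : ℝ)) ω ∂P
          = ∑ f ∈ D M,
            P.real {ω | Af β ε K x y f.1 f.2 (cf X ω) ∧ T (cf X ω) y f.1 ≤ M} := by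
        rw [integral_finsetSum _ fun f _ => (integrable_const (1 : ℝ)).indicator (hmA M f)]
        apply Finset.sum_congr rfl
        intro f _
        rw [integral_indicator (hmA M f)]
        simp
      rw [h6] at h5
      have h7 : ∑ f ∈ D M, P.real {ω | Af β ε K x y f.1 f.2 (cf X ω) ∧
          T (cf X ω) y f.1 ≤ M} ≤ K * w / κ * (C * M) := by
        refine (Finset.sum_le_sum fun f _ => hAE M f).trans ?_
        rw [← Finset.mul_sum]
        exact mul_le_mul_of_nonneg_left hM (by positivity)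
      have h8 : c₀ / 2 * M * P.real (G M) ≤ K * w / κ * (C * M) := h5.trans h7
      rw [le_div_iff₀ hc₀]
      have h9 : (c₀ * P.real (G M)) * M ≤ (2 * (K * w / κ * C)) * M := by
        calc (c₀ * P.real (G M)) * M = 2 * (c₀ / 2 * M * P.real (G M)) := by ring
          _ ≤ 2 * (K * w / κ * (C * M)) := by linarith
          _ = _ := by ring
      have h10 := le_of_mul_le_mul_right h9 hM0'
      linarith
    refine real_le_of_eventually B G _ hGle ?_
    filter_upwards [hOk, hL] with ω hω hLω hωB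
    simp only [hB, Set.mem_ofPred_eq, Classical.not_imp, not_forall] at hωB
    obtain ⟨hFew, g, hg, hj⟩ := hωB
    obtain ⟨n₀, hn₀⟩ := xr_of_not_join hω hg hj hε
    obtain ⟨M₁, hM₁⟩ := exists_nat_ge (2 * (n₀ : ℝ) / c₀)
    filter_upwards [hLω g hg, eventually_ge_atTop M₁] with M hM hMM
    show c₀ / 2 * M ≤ ∑ f ∈ D M,
      Set.indicator {ω | Af β ε K x y f.1 f.2 (cf X ω) ∧ T (cf X ω) y f.1 ≤ M}
        (fun _ => (1 : ℝ)) ω
    have e1 : ∑ f ∈ D M, Set.indicator {ω | Af β ε K x y f.1 f.2 (cf X ω) ∧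
        T (cf X ω) y f.1 ≤ M} (fun _ => (1 : ℝ)) ω
        = ((D M).filter (fun f => Af β ε K x y f.1 f.2 (cf X ω) ∧
          T (cf X ω) y f.1 ≤ M)).card := by
      rw [Finset.card_filter, Nat.cast_sum]
      apply Finset.sum_congr rfl
      intro f _
      by_cases hf : Af β ε K x y f.1 f.2 (cf X ω) ∧ T (cf X ω) y f.1 ≤ M
      · rw [if_pos hf, Set.indicator_of_mem (show ω ∈ {ω | Af β ε K x y f.1 f.2 (cf X ω) ∧
          T (cf X ω) y f.1 ≤ M} from hf)]
        simp
      · rw [if_neg hf, Set.indicator_of_notMem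
          (show ω ∉ {ω | Af β ε K x y f.1 f.2 (cf X ω) ∧ T (cf X ω) y f.1 ≤ M} from hf)]
        simp
    rw [e1]
    have e2 : ((D M).filter (fun f => β ≤ cf X ω (ed f.1 f.2) ∧
        T (cf X ω) y f.1 ≤ M ∧ ∃ n, f = (pos x (pre g n), g n))) ⊆
        ((D M).filter (fun f => Af β ε K x y f.1 f.2 (cf X ω) ∧ T (cf X ω) y f.1 ≤ M)) ∪
          (Finset.range n₀).image (fun n => (pos x (pre g n), g n)) := by
      intro f hf
      rw [Finset.mem_filter] at hf
      obtain ⟨hfD, hfβ, hfT, n, hn⟩ := hf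
      rw [Finset.mem_union, Finset.mem_filter, Finset.mem_image]
      rcases Nat.lt_or_ge n n₀ with hlt | hge
      · exact Or.inr ⟨n, Finset.mem_range.2 hlt, hn.symm⟩
      · refine Or.inl ⟨hfD, ⟨hfβ, hFew, ?_⟩, hfT⟩
        have := hn₀ n hge
        rw [hn]
        exact this
    have e3 := (Finset.card_le_card e2).trans (Finset.card_union_le _ _)
    have e4 : ((Finset.range n₀).image (fun n => (pos x (pre g n), g n))).card ≤ n₀ :=
      Finset.card_image_le.trans (by rw [Finset.card_range])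
    have e5 : (((D M).filter (fun f => β ≤ cf X ω (ed f.1 f.2) ∧
        T (cf X ω) y f.1 ≤ M ∧ ∃ n, f = (pos x (pre g n), g n))).card : ℝ) ≤
        ((D M).filter (fun f => Af β ε K x y f.1 f.2 (cf X ω) ∧
          T (cf X ω) y f.1 ≤ M)).card + n₀ := by
      exact_mod_cast e3.trans (Nat.add_le_add_left e4 _)
    have e6 : 2 * (n₀ : ℝ) / c₀ ≤ M := hM₁.trans (by exact_mod_cast hMM)
    rw [div_le_iff₀ hc₀] at e6
    linarith
  -- `ε → 0`
  have hB0 : P.real B = 0 := by
    refine le_antisymm (le_of_forall_pos_le_add fun δ hδ => ?_) measureReal_nonneg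
    set A : ℝ := 2 * (K / κ * C) / c₀ with hA
    have h2 := main (δ / (|A| + 1)) (by positivity)
    have h3 : 2 * (K * (δ / (|A| + 1)) / κ * C) / c₀ = A * (δ / (|A| + 1)) := by
      rw [hA]; ring
    rw [h3] at h2
    have h4 : A * (δ / (|A| + 1)) ≤ δ := by
      rw [mul_div_assoc', div_le_iff₀ (by positivity)]
      nlinarith [le_abs_self A, abs_nonneg A]
    linarith
  have h5 : P B = 0 := by
    rcases (ENNReal.toReal_eq_zero_iff _).1 hB0 with h | h
    · exact h
    · exact absurd h (measure_ne_top _ _)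
  exact h5

end Pool.Agent.Helper90.JT
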