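import Pool.Agent.Helper90.PG.PeiOne
import Pool.Agent.Helper59.PG.Quant
import Pool.Agent.Helper79.GR.DE
import Pool.Agent.Helper79.GR.DF
import Pool.Agent.Helper41.JT.Defs

/-!
# JT (MP_13b103_pr): long walks have many expensive edges; edges of geodesics in balls
-/

set_option autoImplicit false

namespace Pool.Agent.Helper90.JT

open MeasureTheory ProbabilityTheory Pool.Agent.Helper79.GR Pool.Agent.Helper41.JT

variable {Ω : Type*} [MeasurableSpace Ω] {d : ℕ} {P : Measure Ω} {ν : Measure ℝ}

theorem countP_add_countP {ι : Type*} (X : ι → ℝ) (β : ℝ) (l : List ι) :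
    l.countP (fun e => decide (β ≤ X e)) + l.countP (fun e => decide (X e < β)) =
      l.length := by
  induction l with
  | nil => rfl
  | cons e l ih =>
    rw [List.countP_cons, List.countP_cons, List.length_cons]
    by_cases h : β ≤ X e
    · have h2 : ¬ X e < β := not_lt.2 h
      simp only [h, h2, decide_true, decide_false, if_true]
      simp
      omega
    · have h2 : X e < β := not_le.1 h
      simp only [h, h2, decide_true, decide_false, if_true]
      simp
      omega

/-- the probability that some walk of length `n` from `x` has more than `n / 2` cheap edges -/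
theorem high_one {X : Edge d → Ω → ℝ} (hP : IsProbabilityMeasure P)
    (hm : ∀ e, Measurable (X e)) (hi : iIndepFun X P) (hl : ∀ e, P.map (X e) = ν)
    (hd : 1 ≤ d) {β : ℝ} (hb : ν.real (Set.Iio β) ≤ 1 / (64 * (d : ℝ) ^ 2)) (x : V d) (n : ℕ) :
    P {ω | ∃ u : List (St d), u.length = n ∧ (eds x u).Nodup ∧
      2 * ((eds x u).countP (fun e => decide (β ≤ X e ω))) < n} ≤
      ENNReal.ofReal ((1 / 2) ^ n) := by
  have hd' : (1 : ℝ) ≤ d := by exact_mod_cast hd
  have hp0 : (0 : ℝ) < 1 / (64 * (d : ℝ) ^ 2) := by positivity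
  set p : ℝ := 1 / (64 * (d : ℝ) ^ 2) with hp
  set S : (Fin n → St d) → Set Ω := fun f =>
    {ω | (eds x (List.ofFn f)).Nodup ∧
      2 * ((eds x (List.ofFn f)).countP (fun e => decide (β ≤ X e ω))) < n} with hS
  have hsub : {ω | ∃ u : List (St d), u.length = n ∧ (eds x u).Nodup ∧
      2 * ((eds x u).countP (fun e => decide (β ≤ X e ω))) < n} ⊆ ⋃ f, S f := by
    rintro ω ⟨u, hu1, hu2, hu3⟩
    simp only [Set.mem_iUnion]
    refine ⟨fun i => u.get (i.cast hu1.symm), ?_⟩
    have hofn : List.ofFn (fun i : Fin n => u.get (i.cast hu1.symm)) = u := by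
      apply List.ext_getElem
      · rw [List.length_ofFn, hu1]
      · intro m h1 h2
        rw [List.getElem_ofFn]
        rfl
    change (eds x (List.ofFn fun i : Fin n => u.get (i.cast hu1.symm))).Nodup ∧ _
    rw [hofn]
    exact ⟨hu2, hu3⟩
  have hone : ∀ f : Fin n → St d, P (S f) ≤ ENNReal.ofReal ((1 / (4 * d)) ^ n) := by
    intro f
    by_cases hnd : (eds x (List.ofFn f)).Nodup
    · have hlen : (eds x (List.ofFn f)).length = n := by
        rw [Pool.Agent.Helper79.GR.length_eds, List.length_ofFn]
      calc P (S f) ≤ P {ω | (n + 1) / 2 ≤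
              (eds x (List.ofFn f)).countP (fun e => decide (X e ω < β))} := by
            apply measure_mono
            rintro ω ⟨-, hω⟩
            have h3 := countP_add_countP (fun e => X e ω) β (eds x (List.ofFn f))
            rw [hlen] at h3
            change (n + 1) / 2 ≤ _
            omega
        _ ≤ ENNReal.ofReal (2 ^ (eds x (List.ofFn f)).length * p ^ ((n + 1) / 2)) :=
            PG.peier1 hP hm hi hl hp0 hb _ hnd _
        _ ≤ ENNReal.ofReal ((1 / (4 * d)) ^ n) := by
            apply ENNReal.ofReal_le_ofReal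
            rw [hlen]
            have h8 : p = (1 / (8 * (d : ℝ))) ^ 2 := by
              rw [hp]
              field_simp
              norm_num
            have h9 : (1 / (8 * (d : ℝ))) ≤ 1 := by
              rw [div_le_one (by positivity)]
              linarith
            calc (2 : ℝ) ^ n * p ^ ((n + 1) / 2)
                = 2 ^ n * (1 / (8 * (d : ℝ))) ^ (2 * ((n + 1) / 2)) := by rw [h8, ← pow_mul]
              _ ≤ 2 ^ n * (1 / (8 * (d : ℝ))) ^ n :=
                  mul_le_mul_of_nonneg_left
                    (pow_le_pow_of_le_one (by positivity) h9 (by omega)) (by positivity)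
              _ = (1 / (4 * d)) ^ n := by
                  rw [← mul_pow]
                  congr 1
                  field_simp
                  norm_num
    · have : S f = ∅ := Set.eq_empty_of_forall_notMem fun ω hω => hnd hω.1
      rw [this]
      simp
  calc P {ω | ∃ u : List (St d), u.length = n ∧ (eds x u).Nodup ∧
      2 * ((eds x u).countP (fun e => decide (β ≤ X e ω))) < n}
      ≤ P (⋃ f, S f) := measure_mono hsub
    _ ≤ ∑ f, P (S f) := measure_iUnion_fintype_le _ _
    _ ≤ ∑ _f : Fin n → St d, ENNReal.ofReal ((1 / (4 * d)) ^ n) :=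
        Finset.sum_le_sum fun f _ => hone f
    _ = ENNReal.ofReal ((1 / 2) ^ n) := by
        have h5 : (((d * 2) ^ n : ℕ) : ENNReal) = ENNReal.ofReal ((d * 2 : ℝ) ^ n) := by
          rw [← ENNReal.ofReal_natCast]
          congr 1
          push_cast
          ring
        have hcard : Fintype.card (St d) = d * 2 := by simp [St]
        rw [Finset.sum_const, Finset.card_univ, Fintype.card_fun, hcard, Fintype.card_fin,
          nsmul_eq_mul, h5, ← ENNReal.ofReal_mul (by positivity)]
        congr 1
        rw [← mul_pow]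
        congr 1
        field_simp
        norm_num

/-- Almost surely every long walk with different edges from any point has at least as many
expensive edges as cheap ones. -/
theorem high {X : Edge d → Ω → ℝ} (hP : IsProbabilityMeasure P)
    (hm : ∀ e, Measurable (X e)) (hi : iIndepFun X P) (hl : ∀ e, P.map (X e) = ν)
    (hd : 1 ≤ d) {β : ℝ} (hb : ν.real (Set.Iio β) ≤ 1 / (64 * (d : ℝ) ^ 2)) :
    ∀ᵐ ω ∂P, ∀ x : V d, ∃ n₀ : ℕ, ∀ u : List (St d), n₀ ≤ u.length → (eds x u).Nodup →
      u.length ≤ 2 * ((eds x u).countP (fun e => decide (β ≤ X e ω))) := by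
  rw [ae_all_iff]
  intro x
  have hsum : ∑' n, P {ω | ∃ u : List (St d), u.length = n ∧ (eds x u).Nodup ∧
      2 * ((eds x u).countP (fun e => decide (β ≤ X e ω))) < n} ≠ ⊤ := by
    apply ne_top_of_le_ne_top _ (ENNReal.tsum_le_tsum fun n => high_one hP hm hi hl hd hb x n)
    rw [← ENNReal.ofReal_tsum_of_nonneg (fun n => by positivity)
      (summable_geometric_of_lt_one (by norm_num) (by norm_num))]
    exact ENNReal.ofReal_ne_top
  filter_upwards [ae_eventually_notMem hsum] with ω hω
  obtain ⟨n₀, hn₀⟩ := Filter.eventually_atTop.1 hω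
  refine ⟨n₀, fun u hu hnd => ?_⟩
  by_contra hc
  exact hn₀ u.length hu ⟨u, rfl, hnd, not_le.1 hc⟩

/-- For a law without atoms and without mass below `a` there is a level `β` with little mass
below it and with positive mass between `a` and `β`. -/
theorem exists_be {ν : Measure ℝ} [IsProbabilityMeasure ν] (hat : ∀ x, ν {x} = 0) {a : ℝ}
    (ha : ν (Set.Iio a) = 0) {q : ℝ} (hq : 0 < q) (hq1 : q < 1) :
    ∃ β : ℝ, a < β ∧ 0 < ν.real (Set.Ico a β) ∧ ν.real (Set.Iio β) ≤ q := by
  obtain ⟨α, β, h1, h2, h3, h4⟩ := Pool.Agent.Helper59.PG.exists_quant hat ha hq hq1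
  refine ⟨β, lt_of_le_of_lt h1 h2, ?_, h4⟩
  have h5 : ν (Set.Iic α) ≤ ν (Set.Iio a) + ν (Set.Ico a β) := by
    refine (measure_mono ?_).trans (measure_union_le _ _)
    intro t ht
    by_cases hta : t < a
    · exact Or.inl hta
    · exact Or.inr ⟨not_lt.1 hta, lt_of_le_of_lt ht h2⟩
  rw [ha, zero_add] at h5
  exact lt_of_lt_of_le h3 (ENNReal.toReal_mono (measure_ne_top _ _) h5)

theorem mem_des {x : V d} {w : List (St d)} {f : V d × St d} :
    f ∈ des x w ↔ ∃ i : ℕ, ∃ hi : i < w.length, f = (pos x (w.take i), w[i]) := by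
  induction w generalizing x with
  | nil => simp [des]
  | cons s w ih =>
    rw [des, List.mem_cons, ih]
    constructor
    · rintro (h | ⟨i, hi, h⟩)
      · exact ⟨0, by simp, by simpa [pos] using h⟩
      · refine ⟨i + 1, by simpa using hi, ?_⟩
        simpa [pos] using h
    · rintro ⟨i, hi, h⟩
      rcases i with _ | i
      · left
        simpa [pos] using h
      · right
        refine ⟨i, by simpa using hi, ?_⟩
        simpa [pos] using h

/-- a geodesic has at most `(b / a) (M + |y|) + 1` directed edges with tail in the ball of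
radius `M` -/
theorem count_ball {a b : ℝ} {c : Edge d → ℝ} (hc : Bd a b c) (hb : 0 ≤ b) (y : V d) {M : ℝ}
    (hM : 0 ≤ M) (D : Finset (V d × St d)) (hD : ∀ f ∈ D, n1 f.1 ≤ M) (w : List (St d)) (hw : Geo c y w) :
    ((D.filter (fun f => f ∈ des y w)).card : ℝ) ≤ b / a * (M + n1 y) + 1 := by
  classical
  have ha := hc.1
  have hnn : 0 ≤ b / a * (M + n1 y) :=
    mul_nonneg (div_nonneg hb ha.le) (add_nonneg hM (n1_nonneg _))
  by_cases hne : (D.filter (fun f => f ∈ des y w)).Nonempty
  · set k : ℕ := ⌊b / a * (M + n1 y)⌋₊ with hk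
    have hsub : D.filter (fun f => f ∈ des y w) ⊆
        (Finset.range (k + 1)).image fun i => (pos y (w.take i), w.getD i (Classical.choice
          (by
            obtain ⟨f, hf⟩ := hne
            exact ⟨f.2⟩))) := by
      intro f hf
      obtain ⟨hfD, hfw⟩ := Finset.mem_filter.1 hf
      obtain ⟨i, hi, hfi⟩ := mem_des.1 hfw
      rw [Finset.mem_image]
      refine ⟨i, ?_, ?_⟩
      · rw [Finset.mem_range, Nat.lt_succ_iff]
        apply Nat.le_floor
        have hgt : Geo c y (w.take i) := Pool.Agent.Helper79.GR.Geo.take hw i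
        have h1 := length_geo hc hgt
        rw [List.length_take, min_eq_left hi.le] at h1
        have h2 : n1 (pos y (w.take i)) ≤ M := by
          have := hD f hfD
          rwa [hfi] at this
        have h3 : n1 (pos y (w.take i) - y) ≤ M + n1 y := by
          have h4 := n1_add_le (pos y (w.take i)) (-y)
          rw [n1_neg, ← sub_eq_add_neg] at h4
          linarith
        rw [div_mul_eq_mul_div, le_div_iff₀ ha, mul_comm]
        exact h1.trans (mul_le_mul_of_nonneg_left h3 hb)
      · rw [hfi]
        simp [List.getD_eq_getElem?_getD, hi]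
    have h1 := Finset.card_le_card hsub
    have h2 := h1.trans (Finset.card_image_le)
    rw [Finset.card_range] at h2
    calc ((D.filter (fun f => f ∈ des y w)).card : ℝ) ≤ ((k + 1 : ℕ) : ℝ) := by exact_mod_cast h2
      _ = k + 1 := by push_cast; ring
      _ ≤ b / a * (M + n1 y) + 1 := by linarith [Nat.floor_le hnn]
  · rw [Finset.not_nonempty_iff_eq_empty] at hne
    rw [hne, Finset.card_empty, Nat.cast_zero]
    linarith

theorem pre_succ (g : ℕ → St d) (n : ℕ) : pre g (n + 1) = pre g n ++ [g n] := by
  simp [pre, List.range_succ]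

theorem length_pre (g : ℕ → St d) (n : ℕ) : (pre g n).length = n := by simp [pre]

theorem eds_pre (x : V d) (g : ℕ → St d) (n : ℕ) :
    eds x (pre g n) = (List.range n).map fun i => ed (pos x (pre g i)) (g i) := by
  induction n with
  | zero => rfl
  | succ n ih =>
    rw [pre_succ, eds_append, ih, List.range_succ, List.map_append]
    rfl

open Classical in
/-- An infinite walk from `x` without double points whose first `N` steps are half expensive has
at least `N / 2 - k₀` expensive directed edges with numbers between `k₀` and `N`. -/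
theorem ray_high {c : Edge d → ℝ} (x : V d) (g : ℕ → St d)
    (hinj : Function.Injective fun n => pos x (pre g n)) (β : ℝ) (N : ℕ)
    (hN : (pre g N).length ≤ 2 * ((eds x (pre g N)).countP (fun e => decide (β ≤ c e))))
    (k₀ : ℕ) (D : Finset (V d × St d))
    (hD : ∀ n, n < N → (pos x (pre g n), g n) ∈ D) :
    N ≤ 2 * ((D.filter (fun f : V d × St d => β ≤ c (ed f.1 f.2) ∧
      ∃ n, k₀ ≤ n ∧ n < N ∧ f = (pos x (pre g n), g n))).card + k₀) := by
  set q : ℕ → Prop := fun i => β ≤ c (ed (pos x (pre g i)) (g i)) with hq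
  have h1 : (eds x (pre g N)).countP (fun e => decide (β ≤ c e)) =
      ((Finset.range N).filter q).card := by
    rw [eds_pre, List.countP_map, List.countP_eq_length_filter,
      ← List.toFinset_card_of_nodup (List.nodup_range.filter _)]
    congr 1
    ext i
    simp [hq]
  have h2 : ((Finset.range N).filter q).card ≤
      ((Finset.range N).filter fun i => q i ∧ k₀ ≤ i).card + k₀ := by
    have h3 : (Finset.range N).filter q ⊆
        ((Finset.range N).filter fun i => q i ∧ k₀ ≤ i) ∪ Finset.range k₀ := by
      intro i hi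
      rw [Finset.mem_filter] at hi
      rw [Finset.mem_union, Finset.mem_filter, Finset.mem_range (m := i) (n := k₀)]
      by_cases hk : k₀ ≤ i
      · exact Or.inl ⟨hi.1, hi.2, hk⟩
      · exact Or.inr (not_le.1 hk)
    have h4 := (Finset.card_le_card h3).trans (Finset.card_union_le _ _)
    rwa [Finset.card_range] at h4
  have h5 : ((Finset.range N).filter fun i => q i ∧ k₀ ≤ i).card ≤
      (D.filter (fun f : V d × St d => β ≤ c (ed f.1 f.2) ∧
        ∃ n, k₀ ≤ n ∧ n < N ∧ f = (pos x (pre g n), g n))).card := by
    apply Finset.card_le_card_of_injOn fun i => (pos x (pre g i), g i)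
    · intro i hi
      have hi' := Finset.mem_filter.1 (Finset.mem_coe.1 hi)
      exact Finset.mem_coe.2 (Finset.mem_filter.2 ⟨hD i (Finset.mem_range.1 hi'.1), hi'.2.1,
        i, hi'.2.2, Finset.mem_range.1 hi'.1, rfl⟩)
    · intro i _ j _ hij
      exact hinj (Prod.ext_iff.1 hij).1
  rw [length_pre, h1] at hN
  omega

theorem n1_pos_le (x : V d) (w : List (St d)) : n1 (pos x w) ≤ n1 x + w.length := by
  have h1 := n1_pos_sub_le x w
  have h2 := n1_add_le (pos x w - x) x
  rw [sub_add_cancel] at h2
  linarith

/-- rays have no double points -/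
theorem ray_inj {a b : ℝ} {c : Edge d → ℝ} (hc : Bd a b c) (x : V d) (g : ℕ → St d)
    (hg : ∀ n, Geo c x (pre g n)) : Function.Injective fun n => pos x (pre g n) := by
  have htake : ∀ i n, i ≤ n → (pre g n).take i = pre g i := by
    intro i n hin
    simp [pre, List.take_range, min_eq_left hin, ← List.map_take]
  have hlt : ∀ i j, i < j → pos x (pre g i) ≠ pos x (pre g j) := by
    intro i j hij
    have h := Geo.pos_inj hc (hg j) hij (le_of_eq (length_pre g j).symm)
    rwa [htake i j hij.le, htake j j le_rfl] at h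
  intro i j hij
  by_contra hne
  rcases lt_or_gt_of_ne hne with h | h
  · exact hlt i j h hij
  · exact hlt j i h hij.symm

end Pool.Agent.Helper90.JT
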